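import Pool.Agent.Helper79.GT.St4

set_option autoImplicit false

namespace Pool.Agent.Helper66.GT

open Pool.Agent.Helper73.DC Pool.Agent.Helper79.GS Pool.Agent.Helper79.GT Finset
open scoped Classical

private theorem digsum (B : ℕ) (f : ℕ → ℕ) (K : ℕ) (hf : ∀ i < K, f i < B) :
    (∑ i ∈ range K, f i * B ^ i) < B ^ K ∧
      ∀ i < K, dg B (∑ i ∈ range K, f i * B ^ i) i = f i := by
  induction K with
  | zero => simp
  | succ K ih =>
    obtain ⟨h1, h2⟩ := ih (fun i hi => hf i (by omega))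
    have hK := hf K (by omega)
    have hB : 0 < B := by omega
    obtain ⟨S, hS⟩ : ∃ S, S = ∑ i ∈ range K, f i * B ^ i := ⟨_, rfl⟩
    rw [sum_range_succ]
    rw [← hS] at h1 h2 ⊢
    constructor
    · calc S + f K * B ^ K < B ^ K + f K * B ^ K := by omega
        _ = (f K + 1) * B ^ K := by ring
        _ ≤ B * B ^ K := Nat.mul_le_mul_right _ hK
        _ = B ^ (K + 1) := by ring
    · intro i hi
      rcases Nat.lt_succ_iff_lt_or_eq.1 hi with h3 | rfl
      · have e : B ^ K = B ^ i * (B * B ^ (K - i - 1)) := by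
          rw [← mul_assoc, ← pow_succ, ← pow_add]
          congr 1
          omega
        rw [← h2 i h3]
        unfold dg
        rw [e, show S + f K * (B ^ i * (B * B ^ (K - i - 1))) =
          S + B ^ i * (B * (f K * B ^ (K - i - 1))) by ring,
          Nat.add_mul_div_left _ _ (pow_pos hB i), Nat.add_mul_mod_self_left]
      · unfold dg
        rw [Nat.add_mul_div_right _ _ (pow_pos hB i), Nat.div_eq_of_lt h1, zero_add,
          Nat.mod_eq_of_lt hK]

private theorem cQ_lt (M : OTM (Fin 5)) (q : M.Q) : cQ M q < nQ M := by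
  unfold cQ nQ
  exact Fin.isLt _

private theorem cG_lt (M : OTM (Fin 5)) (g : M.Γ) : cG M g < nG M := by
  unfold cG nG
  split_ifs
  · omega
  · have := (@Finite.equivFin M.Γ M.finΓ g).isLt
    omega

theorem hSM2 : Pool.Agent.Helper79.GT.StSM2 := by
  intro M β S l hβ1 hβ2
  have hA : ∀ f : ℕ → ℕ, (∀ i < 2 + 2 * M.tapes, f i < β) →
      cfgN M β f < β ^ (2 + 2 * M.tapes) ∧ ∀ i < 2 + 2 * M.tapes, dg β (cfgN M β f) i = f i := by
    intro f hf
    unfold cfgN
    exact digsum β f _ hf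
  refine ⟨hA, ?_⟩
  intro c hc
  obtain ⟨c1, c2, c3⟩ := hc
  have hT : ∀ t, (∑ j ∈ range S, cG M (c.tp t j) * nG M ^ j) < nG M ^ S ∧
      ∀ i < S, dg (nG M) (∑ j ∈ range S, cG M (c.tp t j) * nG M ^ j) i = cG M (c.tp t i) :=
    fun t => digsum (nG M) (fun j => cG M (c.tp t j)) S (fun i _ => cG_lt M _)
  obtain ⟨F, hF⟩ : ∃ F : ℕ → ℕ, F = (fun i =>
    if i = 0 then cQ M c.q
    else if i = 1 then c.pos
    else if i % 2 = 0 then (if h : (i - 2) / 2 < M.tapes then c.hd ⟨(i - 2) / 2, h⟩ else 0)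
    else (if h : (i - 3) / 2 < M.tapes then ∑ j ∈ range S, cG M (c.tp ⟨(i - 3) / 2, h⟩ j) * nG M ^ j
      else 0)) := ⟨_, rfl⟩
  have hN : numC M β S c = cfgN M β F := by
    rw [hF]; rfl
  have hFb : ∀ i < 2 + 2 * M.tapes, F i < β := by
    intro i _
    rw [hF]
    dsimp only
    split_ifs with h1 h2 h3 h4 h4
    · have := cQ_lt M c.q
      omega
    · omega
    · have := c2 ⟨(i - 2) / 2, h4⟩
      omega
    · omega
    · have := (hT ⟨(i - 3) / 2, h4⟩).1
      omega
    · omega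
  obtain ⟨g1, g2⟩ := hA F hFb
  rw [hN]
  refine ⟨g1, ?_, ?_, ?_⟩
  · rw [g2 0 (by omega), hF]
    simp
  · rw [g2 1 (by omega), hF]
    simp
  · intro t
    have ht := t.isLt
    have e1 : dg β (cfgN M β F) (2 + 2 * t.val) = c.hd t := by
      rw [g2 _ (by omega), hF]
      have a1 : ¬ (2 + 2 * t.val = 0) := by omega
      have a2 : ¬ (2 + 2 * t.val = 1) := by omega
      have a3 : (2 + 2 * t.val) % 2 = 0 := by omega
      have a4 : (2 + 2 * t.val - 2) / 2 = t.val := by omega
      simp only [a1, a2, a3, if_false, if_true, a4, ht, dif_pos, Fin.eta]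
    have e2 : dg β (cfgN M β F) (3 + 2 * t.val) =
        ∑ j ∈ range S, cG M (c.tp t j) * nG M ^ j := by
      rw [g2 _ (by omega), hF]
      have a1 : ¬ (3 + 2 * t.val = 0) := by omega
      have a2 : ¬ (3 + 2 * t.val = 1) := by omega
      have a3 : ¬ ((3 + 2 * t.val) % 2 = 0) := by omega
      have a4 : (3 + 2 * t.val - 3) / 2 = t.val := by omega
      simp only [a1, a2, a3, if_false, a4, ht, dif_pos, Fin.eta]
    refine ⟨e1, e2, ?_⟩
    rw [e2]
    exact (hT t).2 _ (c2 t)

end Pool.Agent.Helper66.GT
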